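import Pool.Agent.Run7.h709.OD.Grow
import Pool.Agent.Run7.h600.OD.Theta
import Pool.Agent.Run7.h635.GEN.Stm

/-!
# Piece GGROW: growth of the rows, `F` with polynomially bounded coefficients
-/

set_option autoImplicit false

open PowerSeries

namespace Run7.h709.GEN

open H809.OD H635.GEN Run7.h709.OD

theorem ggrow : S_GGrow := by
  intro N F hF
  have h := theta_holds
  obtain ⟨C0, A, hF⟩ := hF
  refine ⟨1 + 2 * |C0|, 8 * N + A + 2, by have := abs_nonneg C0; linarith, ?_⟩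
  intro r hr hr1 K D n j k b hj hk hb
  set P : ℝ := 2 / (1 - r) with hP
  have h1r : 0 < 1 - r := by linarith
  have hP1 : 1 ≤ P := by
    rw [hP, le_div_iff₀ h1r]; linarith
  have hP0 : 0 ≤ P := by linarith
  have hr0 : 0 ≤ r := hr.le
  have hnn : ∀ f, 0 ≤ nm r n f := nm_nonneg hr0 n
  have nw : nm r n w ≤ P ^ 2 := by
    rw [w]
    refine (nm_pow hr0 n _ 2).trans ?_
    have := nm_nonneg hr0 n phi
    have := nm_phi hr hr1 n
    gcongr
  have hv : ∀ i, |((coeff i vv : ℚ) : ℝ)| ≤ 1 * |((coeff i w : ℚ) : ℝ)| := by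
    intro i
    have h2 : coeff i vv = 1 / 8 * (coeff i w - (-1) ^ i * coeff i w) := by
      rw [vv, coeff_C_mul, map_sub, ng, coeff_rescale]
    rw [h2, one_mul]
    push_cast
    rcases neg_one_pow_eq_or ℝ i with h3 | h3
    · rw [h3]; simp
    · rw [h3]
      have : (1 / 8 : ℝ) * (((coeff i w : ℚ) : ℝ) - -1 * ((coeff i w : ℚ) : ℝ)) =
        (1 / 4) * ((coeff i w : ℚ) : ℝ) := by ring
      rw [this, abs_mul]
      have h4 := abs_nonneg ((coeff i w : ℚ) : ℝ)
      have h5 : |(1 / 4 : ℝ)| = 1 / 4 := abs_of_pos (by norm_num)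
      rw [h5]
      linarith
  have nv : nm r n vv ≤ P ^ 2 := by
    refine (nm_le_of hr0 n vv w 1 fun i _ => hv i).trans ?_
    rw [one_mul]; exact nw
  have nthw : nm r n (th w) ≤ (n + 1) * P ^ 2 := by
    refine (nm_le_of hr0 n (th w) w (n + 1) fun i hi => ?_).trans ?_
    · rw [Run7.h709.OD.coeff_th]
      push_cast
      rw [abs_mul]
      have h2 : |(i : ℝ)| ≤ n + 1 := by
        rw [abs_of_nonneg (by positivity)]
        have : (i : ℝ) ≤ n := by exact_mod_cast hi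
        linarith
      gcongr
    · gcongr
  set B : ℝ := 2 * (|C0| * ((n : ℝ) + 1) ^ (A + 1)) with hB
  have hB0 : 0 ≤ B := by positivity
  have nF : nm r n (2 ^ (0 + 1) * F) ≤ B := by
    have h2 : (2 ^ (0 + 1) * F : ℚ⟦X⟧) = PowerSeries.C (2 : ℚ) * F := by
      rw [map_ofNat]; norm_num
    rw [h2]
    refine (nm_C_mul hr0 n _ _).trans ?_
    have h3 : nm r n F ≤ |C0| * ((n : ℝ) + 1) ^ (A + 1) := by
      unfold nm
      have h4 : ∀ i ∈ Finset.range (n + 1), |((coeff i F : ℚ) : ℝ)| * r ^ i ≤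
          |C0| * ((n : ℝ) + 1) ^ A := by
        intro i hi
        have hi' : (i : ℝ) ≤ n := by exact_mod_cast Nat.lt_succ_iff.1 (Finset.mem_range.1 hi)
        have h5 : r ^ i ≤ 1 := pow_le_one₀ hr0 hr1.le
        calc |((coeff i F : ℚ) : ℝ)| * r ^ i ≤ |((coeff i F : ℚ) : ℝ)| * 1 := by gcongr
          _ = |((coeff i F : ℚ) : ℝ)| := mul_one _
          _ ≤ C0 * ((i : ℝ) + 1) ^ A := hF i
          _ ≤ |C0| * ((i : ℝ) + 1) ^ A := by
              have := le_abs_self C0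
              gcongr
          _ ≤ |C0| * ((n : ℝ) + 1) ^ A := by gcongr
      refine (Finset.sum_le_card_nsmul _ _ _ h4).trans (le_of_eq ?_)
      rw [Finset.card_range, nsmul_eq_mul]
      push_cast
      ring
    rw [hB]
    push_cast
    have h5 : |(2 : ℝ)| = 2 := abs_of_pos (by norm_num)
    rw [h5]
    gcongr
  -- assembly
  rw [row_eq h N 0 K D j k b F hj hk hb]
  refine (le_nm hr0 n _).trans ?_
  have step1 : nm r n (w ^ (D - j) * vv ^ j * (th w ^ b * w ^ (3 * (N * K - b))) *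
      w ^ (N * (K - k)) * (2 ^ (0 + 1) * F) ^ k) ≤
      (P ^ 2) ^ (D - j) * (P ^ 2) ^ j * ((((n : ℝ) + 1) * P ^ 2) ^ b *
        (P ^ 2) ^ (3 * (N * K - b))) * (P ^ 2) ^ (N * (K - k)) * B ^ k := by
    have a1 : nm r n (w ^ (D - j)) ≤ (P ^ 2) ^ (D - j) :=
      (nm_pow hr0 n _ _).trans (pow_le_pow_left₀ (hnn _) nw _)
    have a2 : nm r n (vv ^ j) ≤ (P ^ 2) ^ j :=
      (nm_pow hr0 n _ _).trans (pow_le_pow_left₀ (hnn _) nv _)
    have a3 : nm r n (th w ^ b) ≤ (((n : ℝ) + 1) * P ^ 2) ^ b :=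
      (nm_pow hr0 n _ _).trans (pow_le_pow_left₀ (hnn _) nthw _)
    have a4 : nm r n (w ^ (3 * (N * K - b))) ≤ (P ^ 2) ^ (3 * (N * K - b)) :=
      (nm_pow hr0 n _ _).trans (pow_le_pow_left₀ (hnn _) nw _)
    have a5 : nm r n (w ^ (N * (K - k))) ≤ (P ^ 2) ^ (N * (K - k)) :=
      (nm_pow hr0 n _ _).trans (pow_le_pow_left₀ (hnn _) nw _)
    have a6 : nm r n ((2 ^ (0 + 1) * F) ^ k) ≤ B ^ k :=
      (nm_pow hr0 n _ _).trans (pow_le_pow_left₀ (hnn _) nF _)
    refine (nm_mul hr0 n _ _).trans (mul_le_mul ?_ a6 (hnn _) (by positivity))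
    refine (nm_mul hr0 n _ _).trans (mul_le_mul ?_ a5 (hnn _) (by positivity))
    refine (nm_mul hr0 n _ _).trans (mul_le_mul ?_ ?_ (hnn _) (by positivity))
    · exact (nm_mul hr0 n _ _).trans (mul_le_mul a1 a2 (hnn _) (by positivity))
    · exact (nm_mul hr0 n _ _).trans (mul_le_mul a3 a4 (hnn _) (by positivity))
  refine step1.trans ?_
  have hn1 : (1 : ℝ) ≤ (n : ℝ) + 1 := by
    have : (0 : ℝ) ≤ n := by positivity
    linarith
  set C : ℝ := 1 + 2 * |C0| with hC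
  have hC1 : 1 ≤ C := by
    have := abs_nonneg C0
    linarith
  have hBC : B ≤ C * ((n : ℝ) + 1) ^ (A + 1) := by
    rw [hB, hC]
    have : (0 : ℝ) ≤ ((n : ℝ) + 1) ^ (A + 1) := by positivity
    nlinarith
  have hexp : (P ^ 2) ^ (D - j) * (P ^ 2) ^ j = P ^ (2 * D) := by
    rw [← pow_add, ← pow_mul]
    congr 1
    omega
  have hQ1 : 1 ≤ C * ((n : ℝ) + 1) * P := by
    have := one_le_mul_of_one_le_of_one_le hC1 hn1
    exact one_le_mul_of_one_le_of_one_le this hP1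
  calc (P ^ 2) ^ (D - j) * (P ^ 2) ^ j * ((((n : ℝ) + 1) * P ^ 2) ^ b *
        (P ^ 2) ^ (3 * (N * K - b))) * (P ^ 2) ^ (N * (K - k)) * B ^ k
      ≤ (P ^ 2) ^ (D - j) * (P ^ 2) ^ j * ((((n : ℝ) + 1) * P ^ 2) ^ b *
        (P ^ 2) ^ (3 * (N * K - b))) * (P ^ 2) ^ (N * (K - k)) *
          (C * ((n : ℝ) + 1) ^ (A + 1)) ^ k := by gcongr
    _ = P ^ (2 * D) * (P ^ (2 * b + 6 * (N * K - b) + 2 * (N * (K - k))) *
          ((n : ℝ) + 1) ^ (b + (A + 1) * k) * C ^ k) := by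
        rw [hexp]
        generalize (n : ℝ) + 1 = Q
        rw [mul_pow, mul_pow]
        ring_nf
    _ ≤ P ^ (2 * D) * (P ^ ((8 * N + A + 2) * (K + 1)) *
          ((n : ℝ) + 1) ^ ((8 * N + A + 2) * (K + 1)) * C ^ ((8 * N + A + 2) * (K + 1))) := by
        have e1 : 2 * b + 6 * (N * K - b) + 2 * (N * (K - k)) ≤ (8 * N + A + 2) * (K + 1) := by
          have : N * (K - k) ≤ N * K := Nat.mul_le_mul_left _ (Nat.sub_le _ _)
          have e2 : (8 * N + A + 2) * (K + 1) = 8 * (N * K) + 8 * N + (A + 2) * (K + 1) := by ring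
          omega
        have e3 : b + (A + 1) * k ≤ (8 * N + A + 2) * (K + 1) := by
          have h3 : (A + 1) * k ≤ (A + 1) * K := Nat.mul_le_mul_left _ hk
          have e2 : (8 * N + A + 2) * (K + 1) = 8 * (N * K) + 8 * N + K + A + 2 + (A + 1) * K := by
            ring
          omega
        have e4 : k ≤ (8 * N + A + 2) * (K + 1) := by
          have e2 : (8 * N + A + 2) * (K + 1) = K + (8 * N * (K + 1) + A * (K + 1) + K + 2) := by
            ring
          omega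
        gcongr
    _ = P ^ (2 * D) * (C * ((n : ℝ) + 1) * P) ^ ((8 * N + A + 2) * (K + 1)) := by
        rw [mul_pow, mul_pow]
        ring

end Run7.h709.GEN
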