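import Pool.Agent.Run7.h709.GEN.GMainA

/-!
# Piece GMAIN: the main theorem for `G` algebraic over `ℚ(u)`
-/

set_option autoImplicit false

open PowerSeries

namespace Run7.h709.GEN

open H809.OD H635.GEN Run7.h709.OD

/-- **GMAIN** -/
theorem gmain (hz : S_GZero) (hp : S_GPig) (hg : S_GGrow) (hn : S_NoSol) (_h : S_Neg) :
    S_GMain := by
  intro N G a P hN hAlg hG hgrow hcoef heven hP
  obtain ⟨F, hF⟩ : ∃ F : ℚ⟦X⟧, F = PowerSeries.mk fun n => (a n : ℚ) / n := ⟨_, rfl⟩
  have hthF : th F = w ^ (N + 2) * G := by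
    ext n
    rw [Run7.h709.OD.coeff_th, hcoef n, hF, coeff_mk]
    rcases Nat.eq_zero_or_pos n with rfl | hn
    · simp [heven 0 (by simp)]
    · have : (n : ℚ) ≠ 0 := by positivity
      field_simp
  have hng : ng F = -F := by
    ext n
    have : coeff n (ng F) = (-1) ^ n * coeff n F := by
      unfold ng
      rw [coeff_rescale]
    rw [this, map_neg]
    rcases Nat.even_or_odd n with hn | hn
    · rw [hF, coeff_mk, heven n hn]
      simp
    · rw [hn.neg_one_pow]
      ring
  have hFS : F ∈ Ser2 := by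
    rw [hF]
    exact F_ser2 a heven
  have hFg : PolyGrowth F := by
    obtain ⟨C, A, hCA⟩ := hgrow
    refine ⟨C, A, fun n => ?_⟩
    have h1 := hCA n
    rw [hcoef n] at h1
    refine le_trans ?_ h1
    rw [hF, coeff_mk]
    push_cast
    rw [abs_div]
    rcases Nat.eq_zero_or_pos n with rfl | hn
    · simp
    · have h2 : (1 : ℝ) ≤ |(n : ℝ)| := by
        rw [abs_of_nonneg (by positivity)]
        exact_mod_cast hn
      exact div_le_self (abs_nonneg _) h2
  have hG0 : coeff 0 G = 0 := by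
    have h1 := hcoef 0
    rw [heven 0 (by simp), coeff_zero_eq_constantCoeff_apply, map_mul, map_pow] at h1
    have h2 := theta_holds.w_zero
    rw [coeff_zero_eq_constantCoeff_apply] at h2 ⊢
    rw [h2, one_pow, one_mul] at h1
    rw [h1]
    simp
  have hNS := hn N G hN hG hG0 hgrow
  obtain ⟨d, hd, hz⟩ := hz N G F hN hAlg hthF hNS
  obtain ⟨c0, hc0, hp⟩ := hp N G F hAlg hthF hng hFS
  obtain ⟨C, E, hC, hgr⟩ := hg N F hFg
  obtain ⟨l, hl5, hl⟩ := lam_exists' N c0 d
  obtain ⟨K, hK⟩ : ∃ K, K = 2 * (l * (c0 * (1 + c0 * (l + 1)))) := ⟨_, rfl⟩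
  obtain ⟨m, hm⟩ : ∃ m, m = d * ((K + 1) * (2 * N * K + 1)) := ⟨_, rfl⟩
  replace hl := hl K hK
  rw [← hm] at hl
  obtain ⟨Cz, hz⟩ := hz K (2 * N * K) (by nlinarith)
  obtain ⟨q, hq⟩ : ∃ q : ℝ, q = 4 * (m : ℝ) := ⟨_, rfl⟩
  rw [← hq] at hl
  have hm1 : 1 ≤ m := by
    rw [hm]
    exact Nat.mul_pos hd (Nat.mul_pos (by omega) (by omega))
  have hmR : (1 : ℝ) ≤ m := by exact_mod_cast hm1
  have hK1 : 1 ≤ K := by
    rw [hK]
    exact Nat.mul_pos (by norm_num) (Nat.mul_pos (by omega) (Nat.mul_pos hc0 (by omega)))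
  have hKR : (1 : ℝ) ≤ K := by exact_mod_cast hK1
  have hlog2 : 0 < Real.log 2 := Real.log_pos (by norm_num)
  obtain ⟨E', hE'⟩ : ∃ E', E' = E * (K + 1) := ⟨_, rfl⟩
  set c3 : ℝ := Real.log (((K + 1) * (N * K + 1) : ℕ) : ℝ) + Cz * Real.log 2 +
    E' * (Real.log C + Real.log 2 + Real.log (4 * m)) with hc3
  set c4 : ℝ := c3 + 3 * Real.log 2 * (1 + Cz) with hc4
  have hasy := (asym c4 (1 + E') (2 * K) (Real.log 2 / m) (by positivity)).and
    (Filter.eventually_ge_atTop (m * (K + 1) + Cz))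
  obtain ⟨x0, hx0⟩ := Filter.eventually_atTop.1 hasy
  refine ⟨Real.log 2 / (m * K), by positivity, x0, fun x hx => ?_⟩
  obtain ⟨hA, hxm⟩ := hx0 x hx
  have hx1 : 1 ≤ x := by
    have : 1 ≤ m * (K + 1) := Nat.mul_pos hm1 (by omega)
    omega
  have hxR : (1 : ℝ) ≤ x := by exact_mod_cast hx1
  obtain ⟨D, hD⟩ : ∃ D, D = (x - Cz) / m := ⟨_, rfl⟩
  have hDK : K + 1 ≤ D := by
    rw [hD, Nat.le_div_iff_mul_le hm1]
    rw [mul_comm] at hxm
    omega
  have hD1 : 1 ≤ D := by omega
  have hDx : m * D + Cz ≤ x := by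
    have h1 : m * D ≤ x - Cz := by
      rw [hD]
      exact Nat.mul_div_le (x - Cz) m
    omega
  have hDle : D ≤ x := by
    have : D ≤ m * D := Nat.le_mul_of_pos_left _ hm1
    omega
  have hcore := core' N a (fun p => P p ∨ p ^ 2 ≤ x) F hF d Cz c0 l K m hd hz hp C E hC hgr hK hm
    D x hDK hDx (by
      intro p hpp hnp n hn
      have hnp' := not_or.1 hnp
      have hpx : x < p ^ 2 := not_le.1 hnp'.2
      rcases Nat.eq_zero_or_pos n with rfl | hn0
      · rw [heven 0 (by simp)]
        exact dvd_zero _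
      have hv : n.factorization p < 2 := by
        by_contra h2
        have h3 : p ^ 2 ∣ n := (hpp.pow_dvd_iff_le_factorization hn0.ne').2 (not_lt.1 h2)
        have := Nat.le_of_dvd hn0 h3
        omega
      have hv' : n.factorization p = 0 ∨ n.factorization p = 1 := by omega
      rcases hv' with h0 | h0
      · rw [h0, pow_zero]
        exact one_dvd _
      · rw [h0, pow_one]
        refine hP p hpp hnp'.1 n (by omega) ?_
        exact Nat.dvd_of_factorization_pos (by omega))
  have hsz := size_le size P x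
  rw [← hE'] at hcore
  -- logarithms
  have hE0 : (0 : ℝ) < (Eden (fun p => P p ∨ p ^ 2 ≤ x) x : ℝ) := by
    exact_mod_cast Nat.pos_of_ne_zero (Eden_ne (fun p => P p ∨ p ^ 2 ≤ x) x)
  obtain ⟨L, hL⟩ : ∃ L : ℝ, L = (Eden (fun p => P p ∨ p ^ 2 ≤ x) x : ℝ) := ⟨_, rfl⟩
  have hDpos : (0 : ℝ) < D := by exact_mod_cast hD1
  have hCpos : (0 : ℝ) < C := by linarith
  obtain ⟨k1, hk1⟩ : ∃ k1 : ℝ, k1 = (((K + 1) * (N * K + 1) : ℕ) : ℝ) := ⟨_, rfl⟩
  have hk1pos : (0 : ℝ) < k1 := by
    rw [hk1]
    positivity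
  obtain ⟨y, hy⟩ : ∃ y : ℝ, y = (x : ℝ) + 1 := ⟨_, rfl⟩
  have hypos : 0 < y := by
    rw [hy]
    positivity
  have hqpos : 0 < q := by
    rw [hq]
    positivity
  have hDKk : (((D * ((K + 1) * (N * K + 1)) : ℕ) : ℝ)) = D * k1 := by
    rw [hk1]
    push_cast
    ring
  rw [← hL] at hcore hE0 hsz
  rw [hDKk, ← hq, ← hy] at hcore
  have hlogc := Real.log_le_log (by positivity) hcore
  rw [Real.log_pow, Real.log_mul (by positivity) (by positivity),
    Real.log_mul (by positivity) (by positivity), Real.log_mul (by positivity) (by positivity),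
    Real.log_mul (by positivity) (by positivity), Real.log_mul (by positivity) (by positivity),
    Real.log_mul (by positivity) (by positivity), Real.log_pow, Real.log_pow, Real.log_pow,
    Real.log_pow, Real.log_pow, Real.log_mul (by positivity) (by positivity),
    Real.log_mul (by positivity) (by positivity)] at hlogc
  have hl' : 5 * Real.log 2 + 2 * Real.log q ≤ l * Real.log 2 := by
    have := Real.log_le_log (by positivity) hl
    rw [Real.log_mul (by positivity) (by positivity), Real.log_pow, Real.log_pow,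
      Real.log_pow] at this
    push_cast at this
    linarith
  have hlD : Real.log D ≤ Real.log x := Real.log_le_log hDpos (by exact_mod_cast hDle)
  have hlx1 : Real.log y ≤ Real.log 2 + Real.log x := by
    rw [← Real.log_mul (by positivity) (by positivity)]
    exact Real.log_le_log hypos (by rw [hy]; linarith)
  have hDge : (x : ℝ) / m - 1 - Cz ≤ D := by
    have h1 : (x : ℝ) < m * ((D : ℝ) + 1) + Cz := by
      have h2 : x - Cz < m * ((x - Cz) / m + 1) := Nat.lt_mul_div_succ (x - Cz) hm1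
      rw [← hD] at h2
      have h3 : x < m * (D + 1) + Cz := by omega
      exact_mod_cast h3
    have h3 : (x : ℝ) / m < (D : ℝ) + 1 + Cz := by
      rw [div_lt_iff₀ (by positivity)]
      have h4 : (Cz : ℝ) ≤ Cz * m := le_mul_of_one_le_right (by positivity) hmR
      have h5 : ((D : ℝ) + 1 + Cz) * m = m * ((D : ℝ) + 1) + Cz * m := by ring
      linarith
    linarith
  have key : ∀ S : ℝ, Real.log L ≤ S + 2 * (Real.sqrt x * Real.log x) →
      Real.log 2 / (m * K) * x ≤ S := by
    intro S hsz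
    push_cast at hlogc
    have hK0 : (0 : ℝ) < K := by linarith
    have e1 : (K : ℝ) * Real.log L ≤
        K * (S + 2 * (Real.sqrt x * Real.log x)) := mul_le_mul_of_nonneg_left hsz hK0.le
    have e2 : (E' : ℝ) * (Real.log C + Real.log y + Real.log q) ≤
        E' * (Real.log C + (Real.log 2 + Real.log x) + Real.log q) := by
      gcongr
    have e3 : (D : ℝ) * (5 * Real.log 2 + 2 * Real.log q) ≤ D * (l * Real.log 2) :=
      mul_le_mul_of_nonneg_left hl' hDpos.le
    have e4 : ((x : ℝ) / m - 1 - Cz) * (3 * Real.log 2) ≤ D * (3 * Real.log 2) :=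
      mul_le_mul_of_nonneg_right hDge (by positivity)
    have e6 : 3 * Real.log 2 * (x / m) ≤ K * S + (c4 + (1 + E') * Real.log x +
        2 * K * (Real.sqrt x * Real.log x)) := by
      rw [hc4, hc3, ← hk1, ← hq]
      linarith
    have e7 : 2 * Real.log 2 * (x / m) ≤ K * S := by
      have : Real.log 2 / m * x = Real.log 2 * (x / m) := by ring
      rw [this] at hA
      linarith
    have e8 : Real.log 2 / (m * K) * x = (Real.log 2 * (x / m)) / K := by
      field_simp
    rw [e8, div_le_iff₀ hK0]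
    have e9 : 0 ≤ Real.log 2 * (x / m) := by positivity
    linarith
  exact key _ hsz

end Run7.h709.GEN
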