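import Pool.Agent.Run7.h709.OD.Asm
import Pool.Agent.Run7.h809.OD.Den
import Pool.Agent.Run7.h600.OD.Theta
import Pool.Agent.Run7.h594.OD.Near
import Pool.Agent.Run7.h635.GEN.Stm

/-!
# Piece GMAIN, part A: choice of the parameters, upper bound, the inequality of one auxiliary
function
-/

set_option autoImplicit false

open PowerSeries

namespace Run7.h709.GEN

open H809.OD H635.GEN Run7.h709.OD

/-- choice of the parameter `λ` -/
theorem lam_exists' (N c0 d : ℕ) : ∃ l : ℕ, 5 ≤ l ∧ ∀ K : ℕ, K = 2 * (l * (c0 * (1 + c0 * (l + 1)))) →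
    2 ^ 5 * (4 * (((d * ((K + 1) * (2 * N * K + 1)) : ℕ) : ℝ))) ^ 2 ≤ (2 : ℝ) ^ l := by
  set a : ℝ := 2 * c0 * (1 + c0) + 1 with ha
  set e : ℝ := d * ((2 * N + 1) * a ^ 2) with he
  have h1 := tendsto_pow_const_div_const_pow_of_one_lt 8 (r := (2 : ℝ)) (by norm_num)
  have hc : (0 : ℝ) < 1 / (1024 * e ^ 2 + 1) := by positivity
  have h2 := (h1.eventually (gt_mem_nhds hc)).and (Filter.eventually_ge_atTop 6)
  obtain ⟨n, h3, h4⟩ := h2.exists
  obtain ⟨l, rfl⟩ : ∃ l, n = l + 1 := ⟨n - 1, by omega⟩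
  refine ⟨l, by omega, fun K hK => ?_⟩
  rw [div_lt_div_iff₀ (by positivity) (by positivity)] at h3
  have hl : (0 : ℝ) ≤ l := by positivity
  have hN : (0 : ℝ) ≤ N := by positivity
  have hc0 : (0 : ℝ) ≤ c0 := by positivity
  have hd : (0 : ℝ) ≤ d := by positivity
  have hKR : (K : ℝ) = 2 * (l * (c0 * (1 + c0 * (l + 1)))) := by
    rw [hK]
    push_cast
    ring
  have hK0 : (0 : ℝ) ≤ K := by positivity
  have e1 : (K : ℝ) + 1 ≤ a * (l + 1) ^ 2 := by
    rw [hKR, ha]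
    have i0 : (1 : ℝ) + c0 * (l + 1) ≤ (1 + c0) * (l + 1) := by
      have : (1 + (c0 : ℝ)) * (l + 1) = 1 + c0 * (l + 1) + l := by ring
      linarith
    have i1 : (l : ℝ) * (c0 * (1 + c0 * (l + 1))) ≤ (l + 1) * (c0 * ((1 + c0) * (l + 1))) := by
      refine mul_le_mul (by linarith) (mul_le_mul_of_nonneg_left i0 hc0) (by positivity)
        (by positivity)
    have i2 : (1 : ℝ) ≤ (l + 1) ^ 2 := one_le_pow₀ (by linarith)
    have i3 : (2 * (c0 : ℝ) * (1 + c0) + 1) * (l + 1) ^ 2 =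
        2 * ((l + 1) * (c0 * ((1 + c0) * (l + 1)))) + (l + 1) ^ 2 := by ring
    linarith
  have e2 : 2 * (N : ℝ) * K + 1 ≤ (2 * N + 1) * (a * (l + 1) ^ 2) := by
    have i1 : (2 * (N : ℝ) + 1) * (K + 1) = 2 * (N : ℝ) * K + 1 + (2 * N + K) := by ring
    calc 2 * (N : ℝ) * K + 1 ≤ (2 * N + 1) * (K + 1) := by linarith
      _ ≤ _ := mul_le_mul_of_nonneg_left e1 (by positivity)
  have e3 : ((d * ((K + 1) * (2 * N * K + 1)) : ℕ) : ℝ) ≤ e * (l + 1) ^ 4 := by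
    push_cast
    calc (d : ℝ) * ((K + 1) * (2 * N * K + 1)) ≤
        d * ((a * (l + 1) ^ 2) * ((2 * N + 1) * (a * (l + 1) ^ 2))) :=
          mul_le_mul_of_nonneg_left (mul_le_mul e1 e2 (by positivity) (by positivity)) hd
      _ = _ := by rw [he]; ring
  have he0 : 0 ≤ e := by positivity
  calc (2 : ℝ) ^ 5 * (4 * (((d * ((K + 1) * (2 * N * K + 1)) : ℕ) : ℝ))) ^ 2
      ≤ 2 ^ 5 * (4 * (e * (l + 1) ^ 4)) ^ 2 := by gcongr
    _ = 512 * (((l : ℝ) + 1) ^ 8 * e ^ 2) := by ring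
    _ ≤ (2 : ℝ) ^ l := by
        push_cast at h3
        rw [pow_succ (2 : ℝ) l] at h3
        have i1 : 0 ≤ ((l : ℝ) + 1) ^ 8 := by positivity
        have i2 : ((l : ℝ) + 1) ^ 8 * (1024 * e ^ 2 + 1) =
          2 * (512 * (((l : ℝ) + 1) ^ 8 * e ^ 2)) + ((l : ℝ) + 1) ^ 8 := by ring
        rw [i2] at h3
        linarith

/-- upper bound for the coefficients of the auxiliary function -/
theorem upper' (N d K D : ℕ) (F : ℚ⟦X⟧) (c : ℕ → ℕ → ℕ → ℤ) (hc : ∀ j k b, |c j k b| < 2 ^ D)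
    (C : ℝ) (E : ℕ) (hC : 1 ≤ C)
    (hg : ∀ r : ℝ, 0 < r → r < 1 → ∀ K D n j k b : ℕ, j ≤ D → k ≤ K → b ≤ N * K →
      |((coeff n (w ^ (D + 4 * N * K) * row N d F j k b) : ℚ) : ℝ)| * r ^ n ≤
        (2 / (1 - r)) ^ (2 * D) * (C * (n + 1) * (2 / (1 - r))) ^ (E * (K + 1)))
    (m T x n : ℕ) (hm : 1 ≤ m) (hn : n ≤ m * T) (hnx : n ≤ x) :
    |((coeff n (w ^ (D + 4 * N * K) * Phi N d F K D c) : ℚ) : ℝ)| ≤
      ((D * ((K + 1) * (N * K + 1)) : ℕ) : ℝ) * (2 ^ D * (2 ^ T * ((4 * m) ^ (2 * D) *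
        (C * (x + 1) * (4 * m)) ^ (E * (K + 1))))) := by
  set B : ℝ := 2 ^ T * ((4 * m) ^ (2 * D) * (C * (x + 1) * (4 * m)) ^ (E * (K + 1)))
    with hB
  have hm' : (1 : ℝ) ≤ m := by exact_mod_cast hm
  have hrow : ∀ j k b : ℕ, j ≤ D → k ≤ K → b ≤ N * K →
      |((coeff n (w ^ (D + 4 * N * K) * row N d F j k b) : ℚ) : ℝ)| ≤ B := by
    intro j k b hj hk hb
    have hr0 : (0 : ℝ) < 1 - 1 / (2 * m) := by
      rw [sub_pos, div_lt_one (by positivity)]
      linarith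
    have hr1 : (1 : ℝ) - 1 / (2 * m) < 1 := by
      have : (0 : ℝ) < 1 / (2 * m) := by positivity
      linarith
    have h1 := hg _ hr0 hr1 K D n j k b hj hk hb
    have h2 : (2 : ℝ) / (1 - (1 - 1 / (2 * m))) = 4 * m := by
      field_simp
      ring
    rw [h2] at h1
    have h3 : (1 / 2 : ℝ) ^ T ≤ (1 - 1 / (2 * m)) ^ n := by
      have e1 : (1 / 2 : ℝ) ≤ (1 - 1 / (2 * m)) ^ m := by
        have e2 := one_add_mul_le_pow (a := -(1 / (2 * (m : ℝ)))) (by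
          have : (1 : ℝ) / (2 * m) ≤ 1 := by
            rw [div_le_one (by positivity)]
            linarith
          linarith) m
        rw [← sub_eq_add_neg] at e2
        refine le_trans (le_of_eq ?_) e2
        field_simp
        ring
      calc (1 / 2 : ℝ) ^ T ≤ ((1 - 1 / (2 * m)) ^ m) ^ T := by gcongr
        _ = (1 - 1 / (2 * m)) ^ (m * T) := by rw [← pow_mul]
        _ ≤ _ := pow_le_pow_of_le_one hr0.le hr1.le hn
    have h4 : |((coeff n (w ^ (D + 4 * N * K) * row N d F j k b) : ℚ) : ℝ)| * (1 / 2) ^ T ≤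
        (4 * m) ^ (2 * D) * (C * (x + 1) * (4 * m)) ^ (E * (K + 1)) := by
      refine (mul_le_mul_of_nonneg_left h3 (abs_nonneg _)).trans (h1.trans ?_)
      have : (n : ℝ) ≤ x := by exact_mod_cast hnx
      gcongr
    calc |((coeff n (w ^ (D + 4 * N * K) * row N d F j k b) : ℚ) : ℝ)| =
        2 ^ T * (|((coeff n (w ^ (D + 4 * N * K) * row N d F j k b) : ℚ) : ℝ)| * (1 / 2) ^ T) := by
          rw [mul_comm (|_|), ← mul_assoc, ← mul_pow]
          norm_num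
      _ ≤ B := by
          rw [hB]
          gcongr
  have hB0 : 0 ≤ B := by positivity
  rw [coeff_Phi]
  push_cast
  have h5 : ∀ j ∈ Finset.range D, ∀ k ∈ Finset.range (K + 1), ∀ b ∈ Finset.range (N * K + 1),
      |(c j k b : ℝ) * ((coeff n (w ^ (D + 4 * N * K) * row N d F j k b) : ℚ) : ℝ)| ≤
        2 ^ D * B := by
    intro j hj k hk b hb
    rw [abs_mul]
    have e1 : |(c j k b : ℝ)| ≤ 2 ^ D := by
      have := (hc j k b).le
      exact_mod_cast this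
    rw [Finset.mem_range] at hj hk hb
    exact mul_le_mul e1 (hrow j k b (by omega) (by omega) (by omega)) (abs_nonneg _) (by positivity)
  refine (Finset.abs_sum_le_sum_abs _ _).trans ?_
  calc _ ≤ ∑ j ∈ Finset.range D, ((K + 1 : ℕ) : ℝ) * (((N * K + 1 : ℕ) : ℝ) * (2 ^ D * B)) := by
        refine Finset.sum_le_sum fun j hj => ?_
        refine (Finset.abs_sum_le_sum_abs _ _).trans ?_
        refine (Finset.sum_le_card_nsmul _ _ (((N * K + 1 : ℕ) : ℝ) * (2 ^ D * B)) ?_).trans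
          (le_of_eq ?_)
        · intro k hk
          refine (Finset.abs_sum_le_sum_abs _ _).trans ?_
          refine (Finset.sum_le_card_nsmul _ _ (2 ^ D * B) ?_).trans (le_of_eq ?_)
          · intro b hb
            exact h5 j hj k hk b hb
          · rw [Finset.card_range, nsmul_eq_mul]
        · rw [Finset.card_range, nsmul_eq_mul]
    _ = _ := by
        rw [Finset.sum_const, Finset.card_range, nsmul_eq_mul]
        push_cast
        ring

/-- `F` is 2-integral -/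
theorem F_ser2 (a : ℕ → ℤ) (heven : ∀ n, Even n → a n = 0) :
    (PowerSeries.mk fun n => (a n : ℚ) / n) ∈ Ser2 := by
  rw [H594.OD.mem_Ser2]
  intro n
  rw [coeff_mk, H594.OD.mem_Z2]
  rcases Nat.even_or_odd n with hn | hn
  · rw [heven n hn]
    simp
  · have h1 : ((a n : ℚ) / (n : ℚ)).den ∣ n := by
      have := Rat.den_dvd (a n) n
      exact_mod_cast this
    exact Odd.of_dvd_nat hn h1

/-- the inequality coming from one auxiliary function -/
theorem core' (N : ℕ) (a : ℕ → ℤ) (P : ℕ → Prop)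
    (F : ℚ⟦X⟧) (hF : F = PowerSeries.mk fun n => (a n : ℚ) / n)
    (d Cz c0 l K m : ℕ) (hd : 1 ≤ d)
    (hz : ∀ D : ℕ, ∀ c : ℕ → ℕ → Polynomial ℚ, (∀ k b, (c k b).natDegree ≤ D) →
      (∀ k b, c k b ≠ 0 → k ≤ K ∧ b + N * k ≤ 2 * N * K) → (∃ k b, c k b ≠ 0) →
      ∃ n ≤ d * ((K + 1) * (2 * N * K + 1)) * D + Cz,
        coeff n (∑ k ∈ Finset.range (K + 1), ∑ b ∈ Finset.range (2 * N * K + 1),
          Polynomial.aeval u (c k b) * zt ^ b * (F * wi ^ N) ^ k) ≠ 0)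
    (hp : ∀ K D M h : ℕ,
      M * (c0 * (2 * N * K + 1) * (D + c0 * (M + K + 1))) < h * (D * ((K + 1) * (N * K + 1))) →
      ∃ c : ℕ → ℕ → ℕ → ℤ, (∀ j k b, |c j k b| < 2 ^ h) ∧
        (∃ j < D, ∃ k ≤ K, ∃ b ≤ N * K, c j k b ≠ 0) ∧
        ∃ g ∈ Ser2,
          ∑ j ∈ Finset.range D, ∑ k ∈ Finset.range (K + 1), ∑ b ∈ Finset.range (N * K + 1),
            (c j k b : ℚ⟦X⟧) * row N 0 F j k b = 2 ^ M * g)
    (C : ℝ) (E : ℕ) (hC : 1 ≤ C)
    (hg : ∀ r : ℝ, 0 < r → r < 1 → ∀ K D n j k b : ℕ, j ≤ D → k ≤ K → b ≤ N * K →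
      |((coeff n (w ^ (D + 4 * N * K) * row N 0 F j k b) : ℚ) : ℝ)| * r ^ n ≤
        (2 / (1 - r)) ^ (2 * D) * (C * (n + 1) * (2 / (1 - r))) ^ (E * (K + 1)))
    (hK : K = 2 * (l * (c0 * (1 + c0 * (l + 1))))) (hm : m = d * ((K + 1) * (2 * N * K + 1)))
    (D x : ℕ) (hD : K + 1 ≤ D) (hx : m * D + Cz ≤ x)
    (hP : ∀ p, p.Prime → ¬ P p → ∀ n ≤ x, (p : ℤ) ^ (n.factorization p) ∣ a n) :
    (2 : ℝ) ^ (l * D) ≤ (Eden P x : ℝ) ^ K * (((D * ((K + 1) * (N * K + 1)) : ℕ) : ℝ) *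
      (2 ^ D * (2 ^ (D + Cz) * ((4 * m) ^ (2 * D) *
        (C * (x + 1) * (4 * m)) ^ (E * (K + 1)))))) := by
  have h := theta_holds
  have hm1 : 1 ≤ m := by
    rw [hm]
    exact Nat.mul_pos hd (Nat.mul_pos (by omega) (by omega))
  have hD1 : 1 ≤ D := by omega
  -- Siegel's lemma
  obtain ⟨c, hc, ⟨j0, hj0, k0, hk0, b0, hb0, hc0⟩, g, hgS, hUg⟩ :=
    hp K D (l * D) D (by
      have e1 : l * (c0 * (1 + c0 * (l + 1))) * (2 * N * K + 1) < (K + 1) * (N * K + 1) := by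
        have e2 : 2 * (l * (c0 * (1 + c0 * (l + 1))) * (2 * N * K + 1)) <
            2 * ((K + 1) * (N * K + 1)) := by
          calc 2 * (l * (c0 * (1 + c0 * (l + 1))) * (2 * N * K + 1)) = K * (2 * N * K + 1) := by
                rw [← mul_assoc, ← hK]
            _ < 2 * ((K + 1) * (N * K + 1)) := by nlinarith
        omega
      have e3 : D + c0 * (l * D + K + 1) ≤ D * (1 + c0 * (l + 1)) := by
        have : c0 * (l * D + K + 1) ≤ c0 * (l * D + D) := Nat.mul_le_mul_left _ (by omega)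
        calc D + c0 * (l * D + K + 1) ≤ D + c0 * (l * D + D) := by omega
          _ = _ := by ring
      calc l * D * (c0 * (2 * N * K + 1) * (D + c0 * (l * D + K + 1)))
          ≤ l * D * (c0 * (2 * N * K + 1) * (D * (1 + c0 * (l + 1)))) := by gcongr
        _ = (l * (c0 * (1 + c0 * (l + 1))) * (2 * N * K + 1)) * (D * D) := by ring
        _ < ((K + 1) * (N * K + 1)) * (D * D) :=
            Nat.mul_lt_mul_of_pos_right e1 (Nat.mul_pos hD1 hD1)
        _ = D * (D * ((K + 1) * (N * K + 1))) := by ring)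
  change Phi N 0 F K D c = 2 ^ (l * D) * g at hUg
  -- the zero estimate
  have hne : ∃ n, n ≤ m * D + Cz ∧ coeff n (Phi N 0 F K D c) ≠ 0 := by
    have h1 := hz D (cpoly N 0 K D c) (cpoly_deg _ _ _ _ _)
      (fun k b hkb => by
        have := cpoly_supp _ _ _ _ _ _ _ hkb
        refine ⟨this.1, ?_⟩
        have e1 : N * k ≤ N * K := Nat.mul_le_mul_left _ this.1
        have e2 : 2 * N * K = N * K + N * K := by ring
        omega)
      ⟨k0, b0, fun h0 => by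
        have := cpoly_coeff N 0 K D c j0 k0 b0 hj0 hk0 hb0
        rw [h0, Polynomial.coeff_zero] at this
        have h2 : (c j0 k0 b0 : ℚ) ≠ 0 := by exact_mod_cast hc0
        exact mul_ne_zero h2 (by positivity) this.symm⟩
    rw [cpoly_sum, ← hm] at h1
    obtain ⟨n, hn, hn1⟩ := h1
    exact ⟨n, hn, hn1⟩
  classical
  obtain ⟨n, hn, hn0, hmin⟩ : ∃ n, n ≤ m * D + Cz ∧
      coeff n (Phi N 0 F K D c) ≠ 0 ∧
      ∀ i < n, coeff i (Phi N 0 F K D c) = 0 := by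
    refine ⟨Nat.find hne, (Nat.find_spec hne).1, (Nat.find_spec hne).2, fun i hi => ?_⟩
    by_contra h0
    exact Nat.find_min hne hi ⟨hi.le.trans (Nat.find_spec hne).1, h0⟩
  have hnx : n ≤ x := hn.trans hx
  -- integrality
  obtain ⟨z, hz1⟩ := integral N 0 K D n (D + 4 * N * K) (Eden P x) F c
    (fun j k b hk => by
      rw [hF]
      exact den h N a P x hP K (D + 4 * N * K) 0 j k b n hk hnx)
  have hdvd := two_dvd h n (D + 4 * N * K) (l * D) (Eden P x) K _ 1 g 1 z odd_one (by simp) hgS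
    (by rw [one_mul]; exact hUg) hmin hz1
  have hE : Eden P x ≠ 0 := Eden_ne P x
  have hz0 : z ≠ 0 := by
    intro h0
    rw [h0, Int.cast_zero, lead _ _ _ hmin, coeff_zero_eq_constantCoeff_apply, map_pow,
      ← coeff_zero_eq_constantCoeff_apply, h.w_zero, one_pow, one_mul] at hz1
    have h1 : ((Eden P x : ℕ) : ℚ) ≠ 0 := by exact_mod_cast hE
    exact mul_ne_zero (pow_ne_zero K h1) hn0 hz1
  have hle : (2 : ℤ) ^ (l * D) ≤ |z| := by
    have := Int.le_of_dvd (abs_pos.2 hz0) ((dvd_abs _ _).2 hdvd)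
    exact this
  have hle' : (2 : ℝ) ^ (l * D) ≤ |(z : ℝ)| := by exact_mod_cast hle
  refine hle'.trans ?_
  have hz2 : (z : ℝ) = (Eden P x : ℝ) ^ K *
      ((coeff n (w ^ (D + 4 * N * K) * Phi N 0 F K D c) : ℚ) : ℝ) := by
    have : ((z : ℚ) : ℝ) = (((Eden P x : ℚ) ^ K *
      coeff n (w ^ (D + 4 * N * K) * Phi N 0 F K D c) : ℚ) : ℝ) := by rw [hz1]
    push_cast at this
    exact this
  rw [hz2, abs_mul, abs_of_nonneg (by positivity)]
  refine mul_le_mul_of_nonneg_left ?_ (by positivity)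
  refine upper' N 0 K D F c hc C E hC hg m (D + Cz) x n hm1 (hn.trans ?_) hnx
  rw [mul_add]
  have : Cz ≤ m * Cz := Nat.le_mul_of_pos_left _ hm1
  omega

end Run7.h709.GEN
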